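import Pool.Agent.H493Z.Boom.Main

set_option autoImplicit false

open MeasureTheory
open Pool.Agent.H493Z.Boom

namespace Pool.Agent.Results.MP_d9b86d_al.NoIRS

/-- For every rank `2 ≤ r ≤ ℵ₀` the free group of rank `r` has an infinite boomerang subgroup
whose orbit closure supports no invariant random subgroup. -/
theorem result (α : Type) [Nontrivial α] [Countable α] :
    ∃ Δ : SubSp (FreeGroup α), (Δ.grp : Set (FreeGroup α)).Infinite ∧ IsBoomerang Δ ∧
      ¬ ∃ μ : Measure (SubSp (FreeGroup α)), IsIRS μ ∧ μ (orbitClosure Δ) = 1 :=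
  main α

end Pool.Agent.Results.MP_d9b86d_al.NoIRS
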